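import Mathlib

/-!
# Multiboard Gale-Stewart games: a combinatorial hypothesis which gives determinacy

`Hyp K L`: on the set `K` of boards there is a family of nonempty sets such that each member has
`|L|` many disjoint members as subsets, each function from `K` to `L` is constant on a member below
any given member, and decreasing sequences of members have nonempty intersections.
-/

set_option autoImplicit false

namespace Pool.Agent.TH765.MB

/-- ONE has a winning strategy in the game with payoff set `A`, boards `K` and moves in `L`: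
a function `σ` from finite sequences of moves to moves such that in each play `f` (of which ONE makes
the moves `f 0, f 2, f 4, …`) in which ONE follows `σ`, the moves on at least one board form a member
of `A`. -/
def OneWins (K L : Type) (A : Set (ℕ → L)) : Prop :=
  ∃ σ : List (K → L) → (K → L), ∀ f : ℕ → K → L,
    (∀ n : ℕ, f (2 * n) = σ (List.ofFn (fun i : Fin (2 * n) => f i.val))) →
      ∃ α : K, (fun n : ℕ => f n α) ∈ A

/-- TWO has a winning strategy in the game with payoff set `A`, boards `K` and moves in `L`: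
a function `τ` from finite sequences of moves to moves such that in each play `f` (of which TWO makes
the moves `f 1, f 3, f 5, …`) in which TWO follows `τ`, the moves on no board form a member
of `A`. -/
def TwoWins (K L : Type) (A : Set (ℕ → L)) : Prop :=
  ∃ τ : List (K → L) → (K → L), ∀ f : ℕ → K → L,
    (∀ n : ℕ, f (2 * n + 1) = τ (List.ofFn (fun i : Fin (2 * n + 1) => f i.val))) →
      ∀ α : K, (fun n : ℕ => f n α) ∉ A

/-- The statement `D(|L|, |K|)`: all games with boards `K` and moves in `L` are determined. -/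
def Determined (K L : Type) : Prop := ∀ A : Set (ℕ → L), OneWins K L A ∨ TwoWins K L A

/-- The hypothesis: a nonempty family of subsets `E x`, `x ∈ D`, of `K` such that
* each member contains pairwise disjoint members indexed by `L`;
* below each member there is one on which a given function from `K` to `L` is constant;
* decreasing sequences of members have nonempty intersections. -/
def Hyp (K L : Type) : Prop :=
  ∃ (X : Type) (D : Set X) (E : X → Set K), D.Nonempty ∧
    (∀ x ∈ D, ∃ g : L → X, (∀ l, g l ∈ D ∧ ∀ α, α ∈ E (g l) → α ∈ E x) ∧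
      ∀ l l' α, α ∈ E (g l) → α ∈ E (g l') → l = l') ∧
    (∀ x ∈ D, ∀ f : K → L, ∃ x' l, x' ∈ D ∧ ∀ α, α ∈ E x' → α ∈ E x ∧ f α = l) ∧
    (∀ g : ℕ → X, (∀ n, g n ∈ D ∧ ∀ α, α ∈ E (g (n + 1)) → α ∈ E (g n)) →
      ∃ α, ∀ n, α ∈ E (g n))

section

variable {K L X : Type} {D : Set X} {E : X → Set K}

/-- the member after the moves `l` of ONE on a board and `y` of TWO on all boards -/
def node (sp : X → L → X) (co : X → (K → L) → X) (x0 : X) : List (L × (K → L)) → X
  | [] => x0
  | (l, y) :: t => co (sp (node sp co x0 t) l) y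

open Classical in
/-- the history on the board `α` (last move first), given the moves of TWO, last move first -/
noncomputable def hist (l0 : L) (sp : X → L → X) (co : X → (K → L) → X) (E : X → Set K) (x0 : X)
    (α : K) : List (K → L) → List (L × (K → L))
  | [] => []
  | y :: t => ((if h : ∃ l, α ∈ E (sp (node sp co x0 (hist l0 sp co E x0 α t)) l) then h.choose
      else l0), y) :: hist l0 sp co E x0 α t

open Classical in
/-- the move of ONE -/
noncomputable def mv (l0 : L) (sp : X → L → X) (co : X → (K → L) → X) (E : X → Set K) (x0 : X)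
    (ys : List (K → L)) (α : K) : L :=
  if h : ∃ l, α ∈ E (sp (node sp co x0 (hist l0 sp co E x0 α ys)) l) then h.choose else l0

/-- the moves at odd places, last one first -/
def odds {M : Type} (f : ℕ → M) : ℕ → List M
  | 0 => []
  | n + 1 => f (2 * n + 1) :: odds f n

/-- the moves of TWO in a list, last one first -/
def oddsL {M : Type} (s : List M) (d : M) : List M := odds (fun n => s.getD n d) (s.length / 2)

theorem oddsL_ofFn {M : Type} (f : ℕ → M) (d : M) (n : ℕ) :
    oddsL (List.ofFn (fun i : Fin (2 * n) => f i.val)) d = odds f n := by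
  unfold oddsL
  rw [List.length_ofFn, Nat.mul_div_cancel_left n (by norm_num)]
  have key : ∀ m, m ≤ n →
      odds (fun k => (List.ofFn (fun i : Fin (2 * n) => f i.val)).getD k d) m = odds f m := by
    intro m hm
    induction m with
    | zero => rfl
    | succ m ih =>
      have h1 : (List.ofFn (fun i : Fin (2 * n) => f i.val)).getD (2 * m + 1) d = f (2 * m + 1) := by
        rw [List.getD_eq_getElem _ _ (by rw [List.length_ofFn]; omega)]
        simp
      simp only [odds]
      rw [ih (by omega), h1]
  exact key n le_rfl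

end

/-- the list of the moves of ONE on a board and of TWO, last one first -/
def hl {K L : Type} (a : ℕ → L) (y : ℕ → K → L) : ℕ → List (L × (K → L))
  | 0 => []
  | n + 1 => (a n, y n) :: hl a y n

theorem hl_congr {K L : Type} {a a' : ℕ → L} {y : ℕ → K → L} {n : ℕ}
    (h : ∀ i < n, a i = a' i) : hl a y n = hl a' y n := by
  induction n with
  | zero => rfl
  | succ n ih =>
    simp only [hl]
    rw [ih (fun i hi => h i (by omega)), h n (by omega)]

theorem determined_of_hyp {K L : Type} [Nonempty L] (h : Hyp K L) : Determined K L := by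
  classical
  intro A
  obtain ⟨l0⟩ := ‹Nonempty L›
  obtain ⟨X, D, E, ⟨x0, hx0⟩, hsp, hco, hσ⟩ := h
  have hsp' : ∀ x : X, ∃ g : L → X, x ∈ D → ((∀ l, g l ∈ D ∧ ∀ α, α ∈ E (g l) → α ∈ E x) ∧
      ∀ l l' α, α ∈ E (g l) → α ∈ E (g l') → l = l') := by
    intro x
    by_cases hx : x ∈ D
    · obtain ⟨g, hg⟩ := hsp x hx
      exact ⟨g, fun _ => hg⟩
    · exact ⟨fun _ => x0, fun h => absurd h hx⟩
  choose sp hsp1 using hsp'
  have hco' : ∀ (x : X) (f : K → L), ∃ x', x ∈ D → (x' ∈ D ∧ (∀ α, α ∈ E x' → α ∈ E x) ∧
      ∃ l, ∀ α ∈ E x', f α = l) := by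
    intro x f
    by_cases hx : x ∈ D
    · obtain ⟨x', l, h1, h2⟩ := hco x hx f
      exact ⟨x', fun _ => ⟨h1, fun α hα => (h2 α hα).1, l, fun α hα => (h2 α hα).2⟩⟩
    · exact ⟨x0, fun h => absurd h hx⟩
  choose co hco1 using hco'
  have hN : ∀ (a : ℕ → L) (y : ℕ → K → L) n, node sp co x0 (hl a y n) ∈ D := by
    intro a y n
    induction n with
    | zero => exact hx0
    | succ n ih => exact (hco1 _ _ ((hsp1 _ ih).1 _).1).1
  have hNs : ∀ (a : ℕ → L) (y : ℕ → K → L) n α, α ∈ E (node sp co x0 (hl a y (n + 1))) →
      α ∈ E (sp (node sp co x0 (hl a y n)) (a n)) := by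
    intro a y n α hα
    exact (hco1 _ _ ((hsp1 _ (hN a y n)).1 _).1).2.1 α hα
  let val : X → (K → L) → L := fun x f => if h : ∃ l, ∀ α ∈ E x, f α = l then h.choose else l0
  have hval : ∀ (a : ℕ → L) (y : ℕ → K → L) n α, α ∈ E (node sp co x0 (hl a y (n + 1))) →
      y n α = val (node sp co x0 (hl a y (n + 1))) (y n) := by
    intro a y n α hα
    have h1 : ∃ l, ∀ α ∈ E (node sp co x0 (hl a y (n + 1))), y n α = l :=
      (hco1 _ _ ((hsp1 _ (hN a y n)).1 _).1).2.2
    simp only [val, dif_pos h1]
    exact h1.choose_spec α hα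
  -- boards for all sequences of moves
  have hex : ∀ (a : ℕ → L) (y : ℕ → K → L), ∃ α, ∀ n, α ∈ E (node sp co x0 (hl a y n)) := by
    intro a y
    refine hσ (fun n => node sp co x0 (hl a y n)) fun n => ⟨hN a y n, fun α hα => ?_⟩
    exact ((hsp1 _ (hN a y n)).1 _).2 α (hNs a y n α hα)
  by_cases hone : OneWins K L A
  · exact Or.inl hone
  right
  -- the play
  obtain ⟨f, hf, hfA⟩ : ∃ f : ℕ → K → L,
      (∀ n : ℕ, f (2 * n) = mv l0 sp co E x0 (oddsL (List.ofFn (fun i : Fin (2 * n) => f i.val))
        (fun _ => l0))) ∧ ∀ α : K, (fun n : ℕ => f n α) ∉ A := by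
    by_contra hcon
    push Not at hcon
    exact hone ⟨fun s => mv l0 sp co E x0 (oddsL s (fun _ => l0)), fun f hf => hcon f hf⟩
  let y : ℕ → K → L := fun n => f (2 * n + 1)
  have hhist : ∀ (a : ℕ → L) (α : K), (∀ n, α ∈ E (node sp co x0 (hl a y n))) → ∀ n,
      hist l0 sp co E x0 α (odds f n) = hl a y n := by
    intro a α hα n
    induction n with
    | zero => rfl
    | succ n ih =>
      simp only [odds, hist, hl]
      rw [ih]
      have h1 : ∃ l, α ∈ E (sp (node sp co x0 (hl a y n)) l) := ⟨a n, hNs a y n α (hα (n + 1))⟩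
      rw [dif_pos h1]
      have h2 : h1.choose = a n :=
        (hsp1 _ (hN a y n)).2 _ _ α h1.choose_spec (hNs a y n α (hα (n + 1)))
      rw [h2]
  have hmv : ∀ (a : ℕ → L) (α : K), (∀ n, α ∈ E (node sp co x0 (hl a y n))) → ∀ n,
      f (2 * n) α = a n := by
    intro a α hα n
    rw [hf n, oddsL_ofFn]
    simp only [mv]
    rw [hhist a α hα n]
    have h1 : ∃ l, α ∈ E (sp (node sp co x0 (hl a y n)) l) := ⟨a n, hNs a y n α (hα (n + 1))⟩
    rw [dif_pos h1]
    exact (hsp1 _ (hN a y n)).2 _ _ α h1.choose_spec (hNs a y n α (hα (n + 1)))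
  refine ⟨fun s β => val (node sp co x0
    (hl (fun i => s.getD (2 * i) (fun _ => l0) β) y (s.length / 2 + 1))) (y (s.length / 2)), ?_⟩
  intro g hg β
  obtain ⟨α, hα⟩ := hex (fun i => g (2 * i) β) y
  have key : (fun n => g n β) = fun n => f n α := by
    funext n
    obtain ⟨m, rfl | rfl⟩ : ∃ m, n = 2 * m ∨ n = 2 * m + 1 := ⟨n / 2, by omega⟩
    · exact (hmv _ α hα m).symm
    · rw [hg m]
      have hlen : (List.ofFn (fun i : Fin (2 * m + 1) => g i.val)).length / 2 = m := by
        rw [List.length_ofFn]
        omega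
      simp only [hlen]
      have hc : hl (fun i => (List.ofFn (fun i : Fin (2 * m + 1) => g i.val)).getD (2 * i)
          (fun _ => l0) β) y (m + 1) = hl (fun i => g (2 * i) β) y (m + 1) := by
        apply hl_congr
        intro i hi
        rw [List.getD_eq_getElem _ _ (by rw [List.length_ofFn]; omega)]
        simp
      rw [hc]
      exact (hval _ y m α (hα (m + 1))).symm
  rw [key]
  exact hfA α

end Pool.Agent.TH765.MB
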