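import Pool.Agent.H995R3.Main
import Pool.Agent.TH765.MBHyp

/-!
# The hypothesis `Hyp` holds after the Levy collapse of a measurable cardinal to `ω₂`
-/

set_option autoImplicit false

namespace Pool.Agent.TH765.MB

open Cardinal Pool.Agent.Helper669.Forcing Pool.Agent.Helper669.K Pool.Agent.H995R3

/-- The hypothesis `Hyp K L` in the extension, clause by clause. The set `X` which indexes the
family is a set of the ground model; `D` is named by `D : X → Set P`, and `E x` by
`E x : K → Set P`. A function from `A` to `B` is named by `f : A → B → Set P` with `IsFun f`. -/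
def HypN (P : Type) [Preorder P] (K L : Type) : Set P :=
  fex fun X : Type => fex fun D : X → Set P => fex fun E : X → K → Set P =>
    fand (fex fun x => meets (D x))
      (fand
        (fall fun x => fimp (meets (D x)) (fex fun g : L → X → Set P => fand (IsFun g)
          (fand
            (fall fun l => fall fun y => fimp (meets (g l y)) (fand (meets (D y))
              (fall fun α => fimp (meets (E y α)) (meets (E x α)))))
            (fall fun l => fall fun l' => fall fun y => fall fun y' => fall fun α =>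
              fimp (fand (fand (meets (g l y)) (meets (g l' y')))
                (fand (meets (E y α)) (meets (E y' α)))) (fground (l = l'))))))
        (fand
          (fall fun x => fimp (meets (D x)) (fall fun f : K → L → Set P => fimp (IsFun f)
            (fex fun x' => fex fun l => fand (meets (D x')) (fall fun α =>
              fimp (meets (E x' α)) (fand (meets (E x α)) (meets (f α l)))))))
          (fall fun g : ℕ → X → Set P => fimp
            (fand (IsFun g) (fall fun n => fall fun y => fimp (meets (g n y))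
              (fand (meets (D y)) (fall fun z => fimp (meets (g (n + 1) z))
                (fall fun α => fimp (meets (E z α)) (meets (E y α)))))))
            (fex fun α => fall fun n => fall fun y => fimp (meets (g n y)) (meets (E y α))))))

section

variable {κ : Cardinal.{0}} {K W : Type} [LinearOrder K]

/-- the names of the members of the family -/
def nD (U : Ultrafilter K) (x : (K → LC W K) × Set K) : Set (LC W K) :=
  {r | x.2 ∈ U ∧ ∃ s, Ty U s x.1 ∧ r ≤ s}

/-- the names of the sets -/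
def nE (x : (K → LC W K) × Set K) (α : K) : Set (LC W K) := {r | α ∈ x.2 ∧ r ≤ x.1 α}

theorem down_nD (U : Ultrafilter K) (x : (K → LC W K) × Set K) : Down (nD U x) :=
  fun _ hp _ hq => ⟨hp.1, hp.2.choose, hp.2.choose_spec.1, hq.trans hp.2.choose_spec.2⟩

theorem down_nE (x : (K → LC W K) × Set K) (α : K) : Down (nE x α) :=
  fun _ hp _ hq => ⟨hp.1, hq.trans hp.2⟩

theorem ty_const {U : Ultrafilter K} (hN : Nrm κ U) (h0 : ℵ₀ < κ) (p : LC W K) :
    Ty U p (fun _ => p) := by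
  filter_upwards [ev_bdd hN h0 p] with α hα
  ext x
  exact ⟨fun h => h.1, fun h => ⟨h, hα x h⟩⟩

/-- one more value of a condition -/
theorem exists_ext (p : LC W K) (α : K) (hW : Uncountable W) :
    ∃ ξ : W, ∀ γ < α, ∃ r : LC W K, r.g = insert (α, ξ, γ) p.g := by
  have h1 : {ξ : W | ∃ γ, (α, ξ, γ) ∈ p.g}.Countable := by
    refine (p.cnt.image fun x => x.2.1).mono ?_
    rintro ξ ⟨γ, hγ⟩
    exact ⟨(α, ξ, γ), hγ, rfl⟩
  have h2 : {ξ : W | ∃ γ, (α, ξ, γ) ∈ p.g} ≠ Set.univ := by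
    intro h
    rw [h] at h1
    exact not_countable_iff.2 hW (Set.countable_univ_iff.1 h1)
  obtain ⟨ξ, hξ⟩ := (Set.ne_univ_iff_exists_notMem _).1 h2
  refine ⟨ξ, fun γ hγ => ⟨⟨insert (α, ξ, γ) p.g, p.cnt.insert _, ?_, ?_⟩, rfl⟩⟩
  · rintro β ξ' γ1 γ2 (h3 | h3) (h4 | h4)
    · simp only [Prod.mk.injEq] at h3 h4
      rw [h3.2.2, h4.2.2]
    · simp only [Prod.mk.injEq] at h3
      rw [h3.1, h3.2.1] at h4
      exact absurd ⟨_, h4⟩ hξ
    · simp only [Prod.mk.injEq] at h4
      rw [h4.1, h4.2.1] at h3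
      exact absurd ⟨_, h3⟩ hξ
    · exact p.fn _ _ _ _ h3 h4
  · rintro β ξ' γ' (h3 | h3)
    · simp only [Prod.mk.injEq] at h3
      rw [h3.1, h3.2.2]
      exact hγ
    · exact p.val _ _ _ h3

theorem split_ground {U : Ultrafilter K} (hN : Nrm κ U) (hW : Uncountable W) {L : Type}
    (hL : #L < κ) (e : L → K) (he : Function.Injective e) (x : (K → LC W K) × Set K) :
    ∃ g : L → (K → LC W K) × Set K, (∀ l r, r ∈ nD U x → r ∈ nD U (g l)) ∧
      (∀ l α r, r ∈ nE (g l) α → r ∈ nE x α) ∧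
      ∀ l l' α r, r ∈ nE (g l) α → r ∈ nE (g l') α → l = l' := by
  classical
  have : Nonempty (LC W K) := ⟨⟨∅, Set.countable_empty, fun _ _ _ _ h _ => absurd h (by simp),
    fun _ _ _ h => absurd h (by simp)⟩⟩
  choose ξ hξ using fun α => exists_ext (x.1 α) α hW
  choose! r hr using hξ
  let Y : Set K := {α | α ∈ x.2 ∧ ∀ l, e l < α}
  refine ⟨fun l => (fun α => if e l < α then r α (e l) else x.1 α, Y), ?_, ?_, ?_⟩
  · rintro l q ⟨hq1, s, hs, hqs⟩
    have hb : ∀ᶠ α in (U : Filter K), ∀ l, e l < α := hN.comp hL (fun l α => e l < α)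
      fun l => hN.big _
    refine ⟨?_, s, ?_, hqs⟩
    · have h1 : ∀ᶠ α in (U : Filter K), α ∈ x.2 := hq1
      exact h1.and hb
    · filter_upwards [hs, hb] with α h1 h2
      rw [← h1]
      simp only [if_pos (h2 l)]
      ext z
      simp only [cut, hr α (e l) (h2 l), Set.mem_ofPred_eq, Set.mem_insert_iff]
      constructor
      · rintro ⟨h3 | h3, h4⟩
        · rw [h3] at h4
          exact absurd h4 (lt_irrefl _)
        · exact ⟨h3, h4⟩
      · rintro ⟨h3, h4⟩
        exact ⟨Or.inr h3, h4⟩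
  · rintro l α q ⟨hq1, hq2⟩
    refine ⟨hq1.1, hq2.trans ?_⟩
    simp only [if_pos (hq1.2 l)]
    rw [LC.le_iff, hr α (e l) (hq1.2 l)]
    exact Set.subset_insert _ _
  · rintro l l' α q ⟨hq1, hq2⟩ ⟨hq3, hq4⟩
    simp only [if_pos (hq1.2 l)] at hq2
    simp only [if_pos (hq1.2 l')] at hq4
    rw [LC.le_iff, hr α (e l) (hq1.2 l)] at hq2
    rw [LC.le_iff, hr α (e l') (hq1.2 l')] at hq4
    exact he (q.fn _ _ _ _ (hq2 (Set.mem_insert _ _)) (hq4 (Set.mem_insert _ _)))

theorem const_step {U : Ultrafilter K} (hN : Nrm κ U) (h0 : ℵ₀ < κ) (hW : #W < κ) {L : Type}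
    (hL : #L < κ) (x : (K → LC W K) × Set K) (q : LC W K) (hq : q ∈ nD U x)
    (f : K → L → Set (LC W K)) (hf : q ∈ IsFun f) :
    ∃ x' l, ∃ r ≤ q, r ∈ nD U x' ∧ ∀ α v, v ∈ nE x' α → v ∈ nE x α ∧ v ∈ meets (f α l) := by
  classical
  obtain ⟨hY, s, hs, hqs⟩ := hq
  have h1 := hs.add hN h0 hqs
  have h2 := hs.add_le hN h0 hqs
  have h3 : ∀ α, ∃ (r : LC W K) (l : L), add q (x.1 α) ≤ q →
      (r ≤ add q (x.1 α) ∧ r ∈ meets (f α l)) := by
    intro α
    by_cases hα : add q (x.1 α) ≤ q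
    · obtain ⟨r, hr, l, hl⟩ := IsFun.total (down_IsFun f _ hf _ hα) α
      exact ⟨r, l, fun _ => ⟨hr, hl⟩⟩
    · obtain ⟨r, hr, l, hl⟩ := IsFun.total hf α
      exact ⟨r, l, fun h => absurd h hα⟩
  choose h' ll h4 using h3
  obtain ⟨l, hl⟩ := const_small hN hL ll
  obtain ⟨s', hs'⟩ := exists_ty hN h0 hW h'
  let Y' : Set K := {α | α ∈ x.2 ∧ (add q (x.1 α) ≤ q ∧ add q (x.1 α) ≤ x.1 α) ∧ ll α = l}
  have hY' : Y' ∈ U := by
    have h5 : ∀ᶠ α in (U : Filter K), α ∈ x.2 := hY
    exact h5.and (h2.and hl)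
  have hle : s' ≤ q := by
    refine hs'.le_const hN h0 ?_
    filter_upwards [h2] with α hα
    exact ((h4 α hα.1).1).trans hα.1
  refine ⟨(h', Y'), l, s', hle, ⟨hY', s', hs', le_rfl⟩, ?_⟩
  rintro α v ⟨⟨hv1, hv2, hv3⟩, hv4⟩
  refine ⟨⟨hv1, hv4.trans ((h4 α hv2.1).1.trans hv2.2)⟩, ?_⟩
  rw [← hv3]
  exact down_meets _ _ (h4 α hv2.1).2 _ hv4

theorem sigma_step {U : Ultrafilter K} (hN : Nrm κ U) (h0 : ℵ₀ < κ)
    (q : ℕ → LC W K) (hq : ∀ n, q (n + 1) ≤ q n) (x : ℕ → (K → LC W K) × Set K)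
    (hx : ∀ n, q n ∈ nD U (x n))
    (hinc : ∀ n, ∀ t, (∀ m, t ≤ q m) → ∀ α, t ∈ nE (x (n + 1)) α → ∃ u ≤ t, u ∈ nE (x n) α) :
    ∃ w α, (∀ n, w ≤ q n) ∧ ∀ n, w ∈ nE (x n) α := by
  have hY : ∀ᶠ α in (U : Filter K), ∀ n, α ∈ (x n).2 :=
    hN.comp (by rw [Cardinal.mk_nat]; exact h0) (fun n α => α ∈ (x n).2) fun n => (hx n).1
  have hC : ∀ᶠ α in (U : Filter K), ∀ n, Cp (iU q hq) ((x n).1 α) := by
    refine hN.comp (by rw [Cardinal.mk_nat]; exact h0)
      (fun n α => Cp (iU q hq) ((x n).1 α)) fun n => ?_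
    obtain ⟨_, s, hs, hqs⟩ := hx n
    exact hs.cp hN h0 ((iU_le q hq n).trans hqs)
  obtain ⟨α, h1, h2⟩ := (hY.and hC).exists
  have h3 : ∀ k n, ∀ v ≤ uni (iU q hq) ((x (n + k)).1 α) (h2 (n + k)),
      ∃ u ≤ v, u ≤ (x n).1 α := by
    intro k
    induction k with
    | zero =>
      intro n v hv
      refine ⟨v, le_rfl, hv.trans ?_⟩
      rw [LC.le_iff]
      exact Set.subset_union_right
    | succ k ih =>
      intro n v hv
      have e1 : n + (k + 1) = (n + 1) + k := by omega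
      have hv' : v ≤ uni (iU q hq) ((x (n + 1 + k)).1 α) (h2 (n + 1 + k)) := by
        rw [LC.le_iff] at hv ⊢
        simp only [uni] at hv ⊢
        rw [← e1]
        exact hv
      obtain ⟨u, hu, hu'⟩ := ih (n + 1) v hv'
      have hur : ∀ m, u ≤ q m := by
        intro m
        refine hu.trans (hv.trans ?_)
        refine le_trans ?_ (iU_le q hq m)
        rw [LC.le_iff]
        exact Set.subset_union_left
      obtain ⟨u', hu1, hu2⟩ := hinc n u hur α ⟨h1 (n + 1), hu'⟩
      exact ⟨u', hu1.trans hu, hu2.2⟩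
  have h4 : ∀ n m, Cp ((x n).1 α) ((x m).1 α) := by
    have key : ∀ n k, Cp ((x n).1 α) ((x (n + k)).1 α) := by
      intro n k β ξ γ γ' hγ hγ'
      obtain ⟨u, hu, hu'⟩ := h3 k n _ le_rfl
      exact u.fn _ _ _ _ (hu' hγ) (hu (Or.inr hγ'))
    intro n m
    rcases le_total n m with h | h
    · obtain ⟨k, rfl⟩ := Nat.exists_eq_add_of_le h
      exact key n k
    · obtain ⟨k, rfl⟩ := Nat.exists_eq_add_of_le h
      intro β ξ γ γ' hγ hγ'
      exact (key m k β ξ γ' γ hγ' hγ).symm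
  let w : LC W K :=
    { g := (iU q hq).g ∪ ⋃ n, ((x n).1 α).g
      cnt := (iU q hq).cnt.union (Set.countable_iUnion fun n => ((x n).1 α).cnt)
      fn := by
        rintro β ξ γ γ' (ha | ha) (hb | hb)
        · exact (iU q hq).fn _ _ _ _ ha hb
        · obtain ⟨n, hb⟩ := Set.mem_iUnion.1 hb
          exact h2 n _ _ _ _ ha hb
        · obtain ⟨n, ha⟩ := Set.mem_iUnion.1 ha
          exact (h2 n _ _ _ _ hb ha).symm
        · obtain ⟨n, ha⟩ := Set.mem_iUnion.1 ha
          obtain ⟨m, hb⟩ := Set.mem_iUnion.1 hb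
          exact h4 n m _ _ _ _ ha hb
      val := by
        rintro β ξ γ (ha | ha)
        · exact (iU q hq).val _ _ _ ha
        · obtain ⟨n, ha⟩ := Set.mem_iUnion.1 ha
          exact ((x n).1 α).val _ _ _ ha }
  refine ⟨w, α, fun n => ?_, fun n => ⟨h1 n, ?_⟩⟩
  · refine le_trans ?_ (iU_le q hq n)
    rw [LC.le_iff]
    exact Set.subset_union_left
  · rw [LC.le_iff]
    exact (Set.subset_iUnion (fun n => ((x n).1 α).g) n).trans Set.subset_union_right

end

/-- the hypothesis holds in the Levy collapse of a measurable cardinal -/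
theorem hypN_collapse {κ : Cardinal.{0}} (h : IsMeasurable κ) (L : Type) (hL : #L < κ)
    (p : LC (ℵ₁ : Cardinal.{0}).ord.ToType κ.ord.ToType) :
    p ∈ HypN (LC (ℵ₁ : Cardinal.{0}).ord.ToType κ.ord.ToType) κ.ord.ToType L := by
  classical
  obtain ⟨hκ, h2⟩ := regular_of_measurable h
  obtain ⟨U, hN⟩ := exists_normal h
  have h0 : ℵ₀ < κ := h.1
  have h20 : 2 ^ (ℵ₀ : Cardinal.{0}) < κ := h2 _ h0
  have h1 : ℵ₁ < κ := by
    refine lt_of_le_of_lt ?_ h20
    rw [← succ_aleph0]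
    exact Order.succ_le_of_lt (cantor _)
  have hW : #(ℵ₁ : Cardinal.{0}).ord.ToType < κ := by
    rw [Cardinal.mk_ord_toType]
    exact h1
  have hWu : Uncountable (ℵ₁ : Cardinal.{0}).ord.ToType := by
    rw [← Cardinal.aleph0_lt_mk_iff, Cardinal.mk_ord_toType]
    exact aleph0_lt_aleph_one
  obtain ⟨e⟩ : Nonempty (L ↪ κ.ord.ToType) := by
    rw [← Cardinal.le_def, Cardinal.mk_ord_toType]
    exact hL.le
  refine mem_fex_of_mem ((κ.ord.ToType → LC (ℵ₁ : Cardinal.{0}).ord.ToType κ.ord.ToType) ×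
    Set κ.ord.ToType) (down_fex _) ?_
  refine mem_fex_of_mem (nD U) (down_fex _) ?_
  refine mem_fex_of_mem nE (down_fand (down_fex _) (down_fand
    (down_fall fun _ => down_fimp _ _) (down_fand (down_fall fun _ => down_fimp _ _)
      (down_fall fun _ => down_fimp _ _)))) ?_
  refine ⟨?_, ?_, ?_, ?_⟩
  · refine mem_fex_of_mem (fun _ => p, Set.univ) (down_meets _) (meets_of_mem ?_)
    exact ⟨Filter.univ_mem, p, ty_const hN h0 p, le_rfl⟩
  · intro x
    rw [mem_fimp]
    intro q _ hq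
    obtain ⟨r, hr, hrx⟩ := exists_of_meets (down_nD U x) hq
    refine ⟨r, hr, ?_⟩
    obtain ⟨g, hg1, hg2, hg3⟩ := split_ground hN hWu hL e e.injective x
    have hmg : ∀ (t : LC (ℵ₁ : Cardinal.{0}).ord.ToType κ.ord.ToType) l y,
        t ∈ meets (fground (y = g l)) → y = g l := by
      intro t l y ht
      obtain ⟨_, _, s, hs, _⟩ := ht t le_rfl
      exact hs
    refine mem_fex_of_mem (fun l y => fground (y = g l)) (down_fand (down_IsFun _) (down_fand
      (down_fall fun _ => down_fall fun _ => down_fimp _ _)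
      (down_fall fun _ => down_fall fun _ => down_fall fun _ => down_fall fun _ =>
        down_fall fun _ => down_fimp _ _))) ⟨⟨?_, ?_⟩, ?_, ?_⟩
    · intro l
      refine mem_fex_of_mem (g l) (down_meets _) (meets_of_mem ?_)
      exact rfl
    · intro l y y'
      rw [mem_fimp]
      intro t _ ht
      refine ⟨t, le_rfl, ?_⟩
      rw [mem_fground, hmg t l y ht.1, hmg t l y' ht.2]
    · intro l y
      rw [mem_fimp]
      intro t htr ht
      have hy := hmg t l y ht
      subst hy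
      refine ⟨t, le_rfl, meets_of_mem (hg1 l t (down_nD U x _ hrx _ htr)), ?_⟩
      intro α
      rw [mem_fimp]
      intro v _ hv
      obtain ⟨v', hv', hv''⟩ := exists_of_meets (down_nE (g l) α) hv
      exact ⟨v', hv', meets_of_mem (hg2 l α v' hv'')⟩
    · intro l l' y y' α
      rw [mem_fimp]
      intro t _ ht
      have hy := hmg t l y ht.1.1
      have hy' := hmg t l' y' ht.1.2
      subst hy hy'
      obtain ⟨v, hv, hv'⟩ := exists_of_meets (down_nE (g l) α) ht.2.1
      obtain ⟨u, hu, hu'⟩ := exists_of_meets (down_nE (g l') α) (down_meets _ _ ht.2.2 _ hv)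
      refine ⟨t, le_rfl, ?_⟩
      exact hg3 l l' α u (down_nE (g l) α _ hv' _ hu) hu'
  · intro x
    rw [mem_fimp]
    intro q _ hq
    obtain ⟨r, hr, hrx⟩ := exists_of_meets (down_nD U x) hq
    refine ⟨r, hr, ?_⟩
    intro f
    rw [mem_fimp]
    intro t htr hf
    obtain ⟨x', l, v, hv, hvx, h5⟩ :=
      const_step hN h0 hW hL x t (down_nD U x _ hrx _ htr) f hf
    refine ⟨v, hv, ?_⟩
    refine mem_fex_of_mem x' (down_fex _) ?_
    refine mem_fex_of_mem l (down_fand (down_meets _) (down_fall fun _ => down_fimp _ _)) ?_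
    refine ⟨meets_of_mem hvx, fun α => ?_⟩
    rw [mem_fimp]
    intro u _ hu
    obtain ⟨u', hu', hu''⟩ := exists_of_meets (down_nE x' α) hu
    exact ⟨u', hu', meets_of_mem (h5 α u' hu'').1, (h5 α u' hu'').2⟩
  · intro g
    rw [mem_fimp]
    intro q _ hq
    -- a decreasing sequence of conditions deciding the values of `g`
    have step : ∀ (n : ℕ) (t : LC (ℵ₁ : Cardinal.{0}).ord.ToType κ.ord.ToType), ∃ r y, t ≤ q →
        (r ≤ t ∧ r ∈ meets (g n y) ∧ r ∈ nD U y) := by
      intro n t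
      by_cases ht : t ≤ q
      · obtain ⟨r1, hr1, y, hy⟩ := IsFun.total (down_IsFun g _ hq.1 _ ht) n
        obtain ⟨r2, hr2, hr2'⟩ := mem_fimp.1 (hq.2 n y) r1 (hr1.trans ht) hy
        obtain ⟨r3, hr3, hr3'⟩ := exists_of_meets (down_nD U y) hr2'.1
        exact ⟨r3, y, fun _ => ⟨hr3.trans (hr2.trans hr1),
          down_meets _ _ hy _ (hr3.trans hr2), hr3'⟩⟩
      · exact ⟨t, (fun _ => p, Set.univ), fun h => absurd h ht⟩
    choose nr ny hny using step
    let sq : ℕ → LC (ℵ₁ : Cardinal.{0}).ord.ToType κ.ord.ToType :=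
      fun n => Nat.rec q (fun n t => nr n t) n
    have hsq : ∀ n, sq (n + 1) = nr n (sq n) := fun n => rfl
    have hsqq : ∀ n, sq n ≤ q := by
      intro n
      induction n with
      | zero => exact le_rfl
      | succ n ih => rw [hsq]; exact (hny n (sq n) ih).1.trans ih
    have hdec : ∀ n, sq (n + 1) ≤ sq n := fun n => by
      rw [hsq]; exact (hny n (sq n) (hsqq n)).1
    let y : ℕ → (κ.ord.ToType → LC (ℵ₁ : Cardinal.{0}).ord.ToType κ.ord.ToType) ×
      Set κ.ord.ToType := fun n => ny n (sq n)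
    have hy1 : ∀ n, sq (n + 1) ∈ meets (g n (y n)) := fun n => (hny n (sq n) (hsqq n)).2.1
    have hy2 : ∀ n, sq (n + 1) ∈ nD U (y n) := fun n => (hny n (sq n) (hsqq n)).2.2
    obtain ⟨w, α, hw1, hw2⟩ := sigma_step hN h0 (fun n => sq (n + 1)) (fun n => hdec (n + 1))
      y hy2 (by
        intro n t ht α hα
        have ht1 : t ≤ q := (ht 0).trans (hsqq 1)
        have ha : t ∈ meets (g n (y n)) := down_meets _ _ (hy1 n) _ (ht n)
        have hb : t ∈ meets (g (n + 1) (y (n + 1))) := down_meets _ _ (hy1 (n + 1)) _ (ht (n + 1))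
        obtain ⟨r1, hr1, hr1'⟩ := mem_fimp.1 (hq.2 n (y n)) t ht1 ha
        obtain ⟨r2, hr2, hr2'⟩ := mem_fimp.1 (hr1'.2 (y (n + 1))) r1 le_rfl
          (down_meets _ _ hb _ hr1)
        obtain ⟨r3, hr3, hr3'⟩ := mem_fimp.1 (hr2' α) r2 le_rfl
          (meets_of_mem (down_nE _ _ _ hα _ (hr2.trans hr1)))
        obtain ⟨r4, hr4, hr4'⟩ := exists_of_meets (down_nE _ _) hr3'
        exact ⟨r4, hr4.trans (hr3.trans (hr2.trans hr1)), hr4'⟩)
    refine ⟨w, (hw1 0).trans (hsqq 1), ?_⟩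
    refine mem_fex_of_mem α (down_fall fun _ => down_fall fun _ => down_fimp _ _) ?_
    intro n z
    rw [mem_fimp]
    intro v hv hvz
    have hvq : v ≤ q := hv.trans ((hw1 0).trans (hsqq 1))
    have hz : z = y n := IsFun.unique (down_IsFun g _ hq.1 _ hvq) hvz
      (down_meets _ _ (hy1 n) _ (hv.trans (hw1 n)))
    subst hz
    exact ⟨v, le_rfl, meets_of_mem (down_nE _ _ _ (hw2 n) _ hv)⟩

end Pool.Agent.TH765.MB
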